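import Mathlib
import Pool.Agent.Helper73.SM.Goals

set_option autoImplicit false

namespace Pool.Agent.Helper69.SM

open Finset Pool.Agent.Helper73.SM

theorem cg_congr (T : Finset ℤ) (X : ℝ) (m : ℕ) (hm : 1 ≤ m) (hX : 0 ≤ X)
    (h1 : ∀ t ∈ T, |(t : ℝ)| ≤ X) (h2 : ∀ s ∈ T, ∀ t ∈ T, (m : ℤ) ∣ s - t) :
    (T.card : ℝ) ≤ 2 * X / m + 1 := by
  have hm0 : (0 : ℝ) < m := by exact_mod_cast hm
  rcases T.eq_empty_or_nonempty with h | h
  · subst h
    simp only [card_empty, Nat.cast_zero]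
    positivity
  · obtain ⟨t0, ht0, hmin⟩ := T.exists_min_image id h
    have key : ∀ t ∈ T, ∃ k : ℕ, t = t0 + m * k := by
      intro t ht
      obtain ⟨k, hk⟩ := h2 t ht t0 ht0
      have hle : t0 ≤ t := hmin t ht
      have hk0 : 0 ≤ k := by
        by_contra hneg
        push Not at hneg
        have : (m : ℤ) * k < 0 := mul_neg_of_pos_of_neg (by exact_mod_cast hm) hneg
        omega
      obtain ⟨n, rfl⟩ := Int.eq_ofNat_of_zero_le hk0
      exact ⟨n, by linarith⟩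
    choose! f hf using key
    have hsub : T.image f ⊆ Finset.range (⌊2 * X / m⌋₊ + 1) := by
      intro n hn
      obtain ⟨t, ht, rfl⟩ := Finset.mem_image.1 hn
      rw [Finset.mem_range, Nat.lt_succ_iff]
      apply Nat.le_floor
      rw [le_div_iff₀ hm0]
      have e := hf t ht
      have e' : (t : ℝ) = t0 + m * (f t : ℝ) := by exact_mod_cast e
      have a1 := abs_le.1 (h1 t ht)
      have a2 := abs_le.1 (h1 t0 ht0)
      nlinarith [a1.1, a1.2, a2.1, a2.2]
    have hinj : Set.InjOn f T := by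
      intro s hs t ht hst
      rw [hf s hs, hf t ht, hst]
    have hc := Finset.card_le_card hsub
    rw [Finset.card_image_of_injOn hinj, Finset.card_range] at hc
    have hfl : ((⌊2 * X / m⌋₊ : ℕ) : ℝ) ≤ 2 * X / m := Nat.floor_le (by positivity)
    calc (T.card : ℝ) ≤ ((⌊2 * X / m⌋₊ + 1 : ℕ) : ℝ) := by exact_mod_cast hc
      _ = (⌊2 * X / m⌋₊ : ℝ) + 1 := by push_cast; ring
      _ ≤ _ := by linarith

/-- solutions of `a₁ b₂ - a₂ b₁ = σ` when `|b₁| = m` -/
theorem cg_one (P : Finset (ℤ × ℤ)) (X : ℝ) (m : ℕ) (hm : 1 ≤ m) (hX : 0 ≤ X) (b c s : ℤ)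
    (hs : |s| = 1) (hb : b.natAbs = m)
    (h1 : ∀ a ∈ P, |(a.1 : ℝ)| ≤ X) (h2 : ∀ a ∈ P, a.1 * c - a.2 * b = s) :
    (P.card : ℝ) ≤ 2 * X / m + 1 := by
  have hb0 : b ≠ 0 := by
    intro h
    subst h
    simp at hb
    omega
  have hinj : Set.InjOn (fun a : ℤ × ℤ => a.1) P := by
    intro x hx y hy hxy
    have hx2 := h2 x hx
    have hy2 := h2 y hy
    simp only at hxy
    rw [hxy] at hx2
    have : x.2 * b = y.2 * b := by linarith
    have h3 := mul_right_cancel₀ hb0 this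
    exact Prod.ext hxy h3
  have hcard : (P.image (fun a : ℤ × ℤ => a.1)).card = P.card := Finset.card_image_of_injOn hinj
  rw [← hcard]
  apply cg_congr _ X m hm hX
  · intro t ht
    obtain ⟨a, ha, rfl⟩ := Finset.mem_image.1 ht
    exact h1 a ha
  · intro u hu v hv
    obtain ⟨x, hx, rfl⟩ := Finset.mem_image.1 hu
    obtain ⟨y, hy, rfl⟩ := Finset.mem_image.1 hv
    have hx2 := h2 x hx
    have hy2 := h2 y hy
    have hcop : IsCoprime b c := by
      rcases (abs_eq (by norm_num : (0 : ℤ) ≤ 1)).1 hs with h | h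
      · exact ⟨-x.2, x.1, by rw [← h, ← hx2]; ring⟩
      · exact ⟨x.2, -x.1, by linarith⟩
    have hdvd : b ∣ (x.1 - y.1) * c := ⟨x.2 - y.2, by linarith⟩
    have h3 : b ∣ x.1 - y.1 := hcop.dvd_of_dvd_mul_right hdvd
    rw [← hb]
    exact Int.natAbs_dvd.2 h3

/-- at most `6 X / m` solutions for given `(b₁, b₂)` -/
theorem cg_fib (P : Finset (ℤ × ℤ)) (X : ℝ) (m : ℕ) (hm : 1 ≤ m) (hX : (m : ℝ) ≤ X) (b c : ℤ)
    (hb : max b.natAbs c.natAbs = m)
    (h1 : ∀ a ∈ P, |(a.1 : ℝ)| ≤ X ∧ |(a.2 : ℝ)| ≤ X) (h2 : ∀ a ∈ P, |a.1 * c - a.2 * b| = 1) :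
    (P.card : ℝ) ≤ 6 * X / m := by
  have hm0 : (0 : ℝ) < m := by exact_mod_cast hm
  have hX0 : 0 ≤ X := hm0.le.trans hX
  have main : ∀ s : ℤ, |s| = 1 → ((P.filter (fun a => a.1 * c - a.2 * b = s)).card : ℝ) ≤ 2 * X / m + 1 := by
    intro s hs
    rcases le_total c.natAbs b.natAbs with h | h
    · rw [max_eq_left h] at hb
      apply cg_one _ X m hm hX0 b c s hs hb
      · intro a ha
        exact (h1 a (Finset.mem_filter.1 ha).1).1
      · intro a ha
        exact (Finset.mem_filter.1 ha).2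
    · rw [max_eq_right h] at hb
      have hc : ((P.filter (fun a => a.1 * c - a.2 * b = s)).image Prod.swap).card =
          (P.filter (fun a => a.1 * c - a.2 * b = s)).card :=
        Finset.card_image_of_injective _ Prod.swap_injective
      rw [← hc]
      apply cg_one _ X m hm hX0 c b (-s) (by rw [abs_neg]; exact hs) hb
      · intro a ha
        obtain ⟨a', ha', rfl⟩ := Finset.mem_image.1 ha
        exact (h1 a' (Finset.mem_filter.1 ha').1).2
      · intro a ha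
        obtain ⟨a', ha', rfl⟩ := Finset.mem_image.1 ha
        have := (Finset.mem_filter.1 ha').2
        simp only [Prod.fst_swap, Prod.snd_swap]
        linarith
  have hsub : P ⊆ P.filter (fun a => a.1 * c - a.2 * b = 1) ∪ P.filter (fun a => a.1 * c - a.2 * b = -1) := by
    intro a ha
    rw [Finset.mem_union, Finset.mem_filter, Finset.mem_filter]
    rcases (abs_eq (by norm_num : (0 : ℤ) ≤ 1)).1 (h2 a ha) with h | h
    · exact Or.inl ⟨ha, h⟩
    · exact Or.inr ⟨ha, h⟩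
  have h3 := (Finset.card_le_card hsub).trans (Finset.card_union_le _ _)
  have h3' : (P.card : ℝ) ≤ ((P.filter (fun a => a.1 * c - a.2 * b = 1)).card : ℝ) +
      ((P.filter (fun a => a.1 * c - a.2 * b = -1)).card : ℝ) := by exact_mod_cast h3
  have h4 := main 1 (by norm_num)
  have h5 := main (-1) (by norm_num)
  have h6 : 1 ≤ X / m := by rw [le_div_iff₀ hm0]; linarith
  have h7 : 6 * X / m = 6 * (X / m) := by ring
  have h8 : 2 * X / m = 2 * (X / m) := by ring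
  rw [h7]
  rw [h8] at h4 h5
  linarith

/-- the sum over the shells -/
theorem cg_sum (X : ℝ) (N : ℕ) :
    ∑ b ∈ (Icc (-(N : ℤ)) N) ×ˢ (Icc (-(N : ℤ)) N), 6 * X / ((max b.1.natAbs b.2.natAbs : ℕ) : ℝ) =
      48 * X * N := by
  induction N with
  | zero => simp
  | succ N ih =>
    have hsub : (Icc (-(N : ℤ)) N) ×ˢ (Icc (-(N : ℤ)) N) ⊆
        (Icc (-((N + 1 : ℕ) : ℤ)) ((N + 1 : ℕ) : ℤ)) ×ˢ (Icc (-((N + 1 : ℕ) : ℤ)) ((N + 1 : ℕ) : ℤ)) := by
      apply Finset.product_subset_product <;> (apply Finset.Icc_subset_Icc <;> push_cast <;> omega)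
    rw [← Finset.sum_sdiff hsub, ih]
    have hcst : ∀ b ∈ ((Icc (-((N + 1 : ℕ) : ℤ)) ((N + 1 : ℕ) : ℤ)) ×ˢ
        (Icc (-((N + 1 : ℕ) : ℤ)) ((N + 1 : ℕ) : ℤ))) \ ((Icc (-(N : ℤ)) N) ×ˢ (Icc (-(N : ℤ)) N)),
        6 * X / ((max b.1.natAbs b.2.natAbs : ℕ) : ℝ) = 6 * X / ((N + 1 : ℕ) : ℝ) := by
      intro b hb
      have : max b.1.natAbs b.2.natAbs = N + 1 := by
        simp only [Finset.mem_sdiff, Finset.mem_product, Finset.mem_Icc] at hb
        push_cast at hb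
        omega
      rw [this]
    rw [Finset.sum_congr rfl hcst, Finset.sum_const, Finset.card_sdiff_of_subset hsub]
    simp only [Finset.card_product, Int.card_Icc]
    have e1 : ((((N + 1 : ℕ) : ℤ) + 1 - -((N + 1 : ℕ) : ℤ)).toNat) = 2 * N + 3 := by
      push_cast; omega
    have e2 : (((N : ℤ) + 1 - -(N : ℤ)).toNat) = 2 * N + 1 := by omega
    rw [e1, e2]
    have e3 : (2 * N + 3) * (2 * N + 3) - (2 * N + 1) * (2 * N + 1) = 8 * (N + 1) := by
      have : (2 * N + 3) * (2 * N + 3) = (2 * N + 1) * (2 * N + 1) + 8 * (N + 1) := by ring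
      omega
    rw [e3, nsmul_eq_mul]
    have hN : ((N + 1 : ℕ) : ℝ) ≠ 0 := by positivity
    push_cast at hN ⊢
    field_simp
    ring

theorem goalCG : Pool.Agent.Helper73.SM.StmtCG := by
  intro X Y hY hYX
  have hX : 0 ≤ X := hY.trans hYX
  set S : Set Mat := {w : Mat | |(w.1.1 : ℝ)| ≤ X ∧ |(w.2.1 : ℝ)| ≤ X ∧ |(w.1.2 : ℝ)| ≤ Y ∧
    |(w.2.2 : ℝ)| ≤ Y ∧ |dt w.1 w.2| = 1} with hS
  set K : ℕ := ⌊X⌋₊ with hK
  set N : ℕ := ⌊Y⌋₊ with hN
  have hbd : ∀ (Z : ℝ) (z : ℤ), 0 ≤ Z → |(z : ℝ)| ≤ Z → z ∈ Icc (-((⌊Z⌋₊ : ℕ) : ℤ)) ((⌊Z⌋₊ : ℕ) : ℤ) := by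
    intro Z z hZ hz
    have h1 : z.natAbs ≤ ⌊Z⌋₊ := by
      apply Nat.le_floor
      rw [Nat.cast_natAbs, Int.cast_abs]
      exact hz
    rw [Finset.mem_Icc]
    omega
  set BX := Icc (-(K : ℤ)) (K : ℤ) with hBX
  set BY := Icc (-(N : ℤ)) (N : ℤ) with hBY
  set T : Finset Mat := (((BX ×ˢ BY) ×ˢ (BX ×ˢ BY)).filter (fun w => |(w.1.1 : ℝ)| ≤ X ∧
    |(w.2.1 : ℝ)| ≤ X ∧ |(w.1.2 : ℝ)| ≤ Y ∧ |(w.2.2 : ℝ)| ≤ Y ∧ |dt w.1 w.2| = 1)) with hT
  have hST : S = (T : Set Mat) := by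
    ext w
    rw [hS, hT]
    simp only [Set.mem_ofPred_eq, Finset.coe_filter, Finset.mem_product]
    constructor
    · rintro ⟨h1, h2, h3, h4, h5⟩
      exact ⟨⟨⟨hbd X _ hX h1, hbd Y _ hY h3⟩, ⟨hbd X _ hX h2, hbd Y _ hY h4⟩⟩, h1, h2, h3, h4, h5⟩
    · rintro ⟨_, h⟩
      exact h
  refine ⟨?_, ?_⟩
  · rw [hST]
    exact Finset.finite_toSet _
  · rw [hST, Set.ncard_coe_finset]
    have hmap : ∀ w ∈ T, (w.1.2, w.2.2) ∈ BY ×ˢ BY := by
      intro w hw
      rw [hT, Finset.mem_filter, Finset.mem_product, Finset.mem_product, Finset.mem_product] at hw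
      rw [Finset.mem_product]
      exact ⟨hw.1.1.2, hw.1.2.2⟩
    rw [Finset.card_eq_sum_card_fiberwise (f := fun w : Mat => (w.1.2, w.2.2)) (t := BY ×ˢ BY) hmap]
    push_cast
    have hfib : ∀ b ∈ BY ×ˢ BY, (((T.filter (fun w : Mat => (w.1.2, w.2.2) = b)).card : ℕ) : ℝ) ≤
        6 * X / ((max b.1.natAbs b.2.natAbs : ℕ) : ℝ) := by
      intro b hb
      set F := T.filter (fun w : Mat => (w.1.2, w.2.2) = b) with hF
      have hinj : Set.InjOn (fun w : Mat => (w.1.1, w.2.1)) F := by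
        intro x hx y hy hxy
        rw [hF, Finset.mem_coe, Finset.mem_filter] at hx hy
        have h1 := hx.2.trans hy.2.symm
        simp only [Prod.mk.injEq] at h1 hxy
        exact Prod.ext (Prod.ext hxy.1 h1.1) (Prod.ext hxy.2 h1.2)
      have hcard : (F.image (fun w : Mat => (w.1.1, w.2.1))).card = F.card :=
        Finset.card_image_of_injOn hinj
      have hmem : ∀ w ∈ F, |(w.1.1 : ℝ)| ≤ X ∧ |(w.2.1 : ℝ)| ≤ X ∧ |w.1.1 * b.2 - w.2.1 * b.1| = 1 := by
        intro w hw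
        rw [hF, Finset.mem_filter, hT, Finset.mem_filter] at hw
        obtain ⟨⟨_, h1, h2, _, _, h5⟩, h6⟩ := hw
        refine ⟨h1, h2, ?_⟩
        rw [← h6]
        have e : w.1.1 * w.2.2 - w.2.1 * w.1.2 = dt w.1 w.2 := by
          unfold dt
          ring
        simp only
        rw [e]
        exact h5
      rcases Nat.eq_zero_or_pos (max b.1.natAbs b.2.natAbs) with h0 | h0
      · have hFe : F = ∅ := by
          rw [Finset.eq_empty_iff_forall_notMem]
          intro w hw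
          have h1 := (hmem w hw).2.2
          have hb1 : b.1 = 0 := by omega
          have hb2 : b.2 = 0 := by omega
          rw [hb1, hb2] at h1
          simp at h1
        rw [hFe, h0]
        simp
      · rw [← hcard]
        apply cg_fib _ X _ h0 _ b.1 b.2 rfl
        · intro a ha
          obtain ⟨w, hw, rfl⟩ := Finset.mem_image.1 ha
          exact ⟨(hmem w hw).1, (hmem w hw).2.1⟩
        · intro a ha
          obtain ⟨w, hw, rfl⟩ := Finset.mem_image.1 ha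
          exact (hmem w hw).2.2
        · have h1 : max b.1.natAbs b.2.natAbs ≤ N := by
            rw [Finset.mem_product, hBY, Finset.mem_Icc, Finset.mem_Icc] at hb
            omega
          have h2 : ((max b.1.natAbs b.2.natAbs : ℕ) : ℝ) ≤ N := by exact_mod_cast h1
          have h3 : (N : ℝ) ≤ Y := Nat.floor_le hY
          linarith
    calc ∑ b ∈ BY ×ˢ BY, (((T.filter (fun w : Mat => (w.1.2, w.2.2) = b)).card : ℕ) : ℝ)
        ≤ ∑ b ∈ BY ×ˢ BY, 6 * X / ((max b.1.natAbs b.2.natAbs : ℕ) : ℝ) := Finset.sum_le_sum hfib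
      _ = 48 * X * N := cg_sum X N
      _ ≤ 48 * X * Y := by
          apply mul_le_mul_of_nonneg_left (Nat.floor_le hY)
          positivity

end Pool.Agent.Helper69.SM
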